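import Pool.Agent.H52.XR2.S2

/-!
# XR2, CLY: the symmetric pairs form a closed set
-/

set_option autoImplicit false

open MeasureTheory Set Filter Topology Metric
open scoped Real ENNReal RealInnerProductSpace

namespace Pool.XR2

open Pool.Agent.H45.XR

section

variable {V : Type*} [NormedAddCommGroup V] [NormedSpace ℝ V]

/-- Upper semicontinuity of the X-ray. -/
theorem cly_usc {K : Set V} (hc : IsCompact K) {u : ℕ → V} {u' : V} {x : ℕ → V} {x' : V}
    (hu : Tendsto u atTop (𝓝 u')) (hx : Tendsto x atTop (𝓝 x')) (h1 : ∀ n, ‖u n‖ = 1) :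
    limsup (fun n => volume {s : ℝ | x n + s • u n ∈ K}) atTop ≤
      volume {s : ℝ | x' + s • u' ∈ K} := by
  obtain ⟨R, hR⟩ := hc.isBounded.subset_closedBall (0 : V)
  obtain ⟨B, hB⟩ := hx.norm.bddAbove_range
  have hB' : ∀ n, ‖x n‖ ≤ B := fun n => hB ⟨n, rfl⟩
  have hm : ∀ (z v : V), MeasurableSet {s : ℝ | z + s • v ∈ K} := fun z v =>
    (hc.isClosed.preimage (by fun_prop : Continuous fun s : ℝ => z + s • v)).measurableSet
  have e : ∀ z v : V, volume {s : ℝ | z + s • v ∈ K} =
      ∫⁻ s : ℝ, {s : ℝ | z + s • v ∈ K}.indicator 1 s := fun z v => by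
    rw [lintegral_indicator_one (hm z v)]
  simp only [e]
  refine (limsup_lintegral_le ((Icc (-(B + R)) (B + R)).indicator 1)
    (fun n => measurable_one.indicator (hm _ _)) (fun n => ?_) ?_).trans ?_
  · refine Eventually.of_forall fun s => ?_
    refine Set.indicator_le_indicator_of_subset ?_ (fun _ => zero_le) s
    intro s hs
    have h2 : ‖x n + s • u n‖ ≤ R := by
      have := hR hs
      rwa [mem_closedBall_zero_iff] at this
    have h3 : ‖s • u n‖ ≤ ‖x n + s • u n‖ + ‖x n‖ := by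
      have := norm_sub_le (x n + s • u n) (x n)
      rwa [add_sub_cancel_left] at this
    rw [norm_smul, h1, mul_one, Real.norm_eq_abs] at h3
    have := hB' n
    rw [mem_Icc, ← abs_le]
    linarith
  · rw [lintegral_indicator_one measurableSet_Icc, Real.volume_Icc]
    exact ENNReal.ofReal_ne_top
  · refine lintegral_mono fun s => ?_
    by_cases hs : x' + s • u' ∈ K
    · rw [Set.indicator_of_mem (show s ∈ {s : ℝ | x' + s • u' ∈ K} from hs)]
      refine (limsup_le_limsup (v := fun _ => (1 : ℝ≥0∞)) (Eventually.of_forall fun n => ?_)).trans ?_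
      · exact Set.indicator_le_self' (fun _ _ => zero_le) s
      · rw [limsup_const]
        rfl
    · have ht : Tendsto (fun n => x n + s • u n) atTop (𝓝 (x' + s • u')) :=
        hx.add (hu.const_smul s)
      have hev : ∀ᶠ n in atTop, x n + s • u n ∉ K :=
        ht.eventually (hc.isClosed.isOpen_compl.mem_nhds hs)
      have : limsup (fun n => {s : ℝ | x n + s • u n ∈ K}.indicator (1 : ℝ → ℝ≥0∞) s) atTop =
          limsup (fun _ : ℕ => (0 : ℝ≥0∞)) atTop := by
        refine limsup_congr ?_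
        filter_upwards [hev] with n hn
        exact Set.indicator_of_notMem (show s ∉ {s : ℝ | x n + s • u n ∈ K} from hn) _
      rw [this, limsup_const]
      exact zero_le

/-- Lower semicontinuity for open sets. -/
theorem cly_lsc {O : Set V} (ho : IsOpen O) {u : ℕ → V} {u' : V} {x : ℕ → V} {x' : V}
    (hu : Tendsto u atTop (𝓝 u')) (hx : Tendsto x atTop (𝓝 x')) :
    volume {s : ℝ | x' + s • u' ∈ O} ≤
      liminf (fun n => volume {s : ℝ | x n + s • u n ∈ O}) atTop := by
  have hm : ∀ (z v : V), MeasurableSet {s : ℝ | z + s • v ∈ O} := fun z v =>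
    (ho.preimage (by fun_prop : Continuous fun s : ℝ => z + s • v)).measurableSet
  have e : ∀ z v : V, volume {s : ℝ | z + s • v ∈ O} =
      ∫⁻ s : ℝ, {s : ℝ | z + s • v ∈ O}.indicator 1 s := fun z v => by
    rw [lintegral_indicator_one (hm z v)]
  simp only [e]
  refine le_trans (lintegral_mono fun s => ?_)
    (lintegral_liminf_le (fun n => measurable_one.indicator (hm _ _)))
  by_cases hs : x' + s • u' ∈ O
  · have ht : Tendsto (fun n => x n + s • u n) atTop (𝓝 (x' + s • u')) :=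
      hx.add (hu.const_smul s)
    have hev : ∀ᶠ n in atTop, x n + s • u n ∈ O := ht.eventually (ho.mem_nhds hs)
    have : liminf (fun n => {s : ℝ | x n + s • u n ∈ O}.indicator (1 : ℝ → ℝ≥0∞) s) atTop =
        liminf (fun _ : ℕ => (1 : ℝ≥0∞)) atTop := by
      refine liminf_congr ?_
      filter_upwards [hev] with n hn
      exact Set.indicator_of_mem (show s ∈ {s : ℝ | x n + s • u n ∈ O} from hn) _
    rw [this, liminf_const]
    exact Set.indicator_le_self' (fun _ _ => zero_le) s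
  · rw [Set.indicator_of_notMem (show s ∉ {s : ℝ | x' + s • u' ∈ O} from hs)]
    exact zero_le

/-- The X-ray at a mixture with an interior point. -/
theorem cly_mix {K : Set V} (hK : Convex ℝ K) {y : V} (hy : y ∈ interior K) (x u : V) {t : ℝ}
    (h0 : 0 < t) (h1 : t < 1) : volume {s : ℝ | x + s • u ∈ K} * ENNReal.ofReal (1 - t) ≤
      volume {s : ℝ | ((1 - t) • x + t • y) + s • u ∈ interior K} := by
  have h2 : 0 < 1 - t := by linarith
  have hsub : {s : ℝ | x + s • u ∈ K} ⊆ ((1 - t) * ·) ⁻¹'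
      {s : ℝ | ((1 - t) • x + t • y) + s • u ∈ interior K} := by
    intro s hs
    have h3 := hK.combo_interior_self_mem_interior hy hs h0 h2.le (by ring)
    show ((1 - t) • x + t • y) + ((1 - t) * s) • u ∈ interior K
    have e : ((1 - t) • x + t • y) + ((1 - t) * s) • u = t • y + (1 - t) • (x + s • u) := by
      rw [smul_add, smul_smul]
      abel
    rw [e]
    exact h3
  have h4 := measure_mono (μ := (volume : Measure ℝ)) hsub
  rw [Real.volume_preimage_mul_left h2.ne', abs_of_pos (inv_pos.2 h2)] at h4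
  calc volume {s : ℝ | x + s • u ∈ K} * ENNReal.ofReal (1 - t)
      ≤ ENNReal.ofReal (1 - t)⁻¹ * volume {s : ℝ | ((1 - t) • x + t • y) + s • u ∈ interior K} *
          ENNReal.ofReal (1 - t) := mul_le_mul_left h4 _
    _ = (ENNReal.ofReal (1 - t)⁻¹ * ENNReal.ofReal (1 - t)) *
          volume {s : ℝ | ((1 - t) • x + t • y) + s • u ∈ interior K} := by ring
    _ = _ := by
        rw [← ENNReal.ofReal_mul (inv_pos.2 h2).le, inv_mul_cancel₀ h2.ne', ENNReal.ofReal_one,
          one_mul]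

/-- A bound for all mixtures gives the bound. -/
theorem cly_lim {K : Set V} (hc : IsCompact K) {A : ℝ≥0∞} {u x y : V} (hu : ‖u‖ = 1)
    (R : V → V) (hR : Continuous R)
    (h : ∀ t : ℝ, 0 < t → t < 1 → A * ENNReal.ofReal (1 - t) ≤
      volume {s : ℝ | R ((1 - t) • x + t • y) + s • u ∈ K}) :
    A ≤ volume {s : ℝ | R x + s • u ∈ K} := by
  have ht : Tendsto (fun n : ℕ => (1 : ℝ) / ((n : ℝ) + 1 + 1)) atTop (𝓝 0) := by
    have := (tendsto_add_atTop_iff_nat 1).2 (tendsto_one_div_add_atTop_nhds_zero_nat (𝕜 := ℝ))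
    simpa using this
  have hx : Tendsto (fun n : ℕ => R ((1 - (1 : ℝ) / ((n : ℝ) + 1 + 1)) • x +
      ((1 : ℝ) / ((n : ℝ) + 1 + 1)) • y)) atTop (𝓝 (R x)) := by
    have h3 : Tendsto (fun n : ℕ => (1 - (1 : ℝ) / ((n : ℝ) + 1 + 1)) • x +
        ((1 : ℝ) / ((n : ℝ) + 1 + 1)) • y) atTop (𝓝 ((1 - (0 : ℝ)) • x + (0 : ℝ) • y)) :=
      ((tendsto_const_nhds.sub ht).smul_const x).add (ht.smul_const y)
    rw [sub_zero, one_smul, zero_smul, add_zero] at h3
    exact (hR.tendsto x).comp h3
  have h1 : Tendsto (fun n : ℕ => A * ENNReal.ofReal (1 - (1 : ℝ) / ((n : ℝ) + 1 + 1))) atTop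
      (𝓝 A) := by
    have h4 : Tendsto (fun n : ℕ => ENNReal.ofReal (1 - (1 : ℝ) / ((n : ℝ) + 1 + 1))) atTop
        (𝓝 (ENNReal.ofReal (1 - 0))) :=
      (ENNReal.continuous_ofReal.tendsto _).comp (tendsto_const_nhds.sub ht)
    rw [sub_zero, ENNReal.ofReal_one] at h4
    have := ENNReal.Tendsto.const_mul h4 (Or.inl one_ne_zero) (a := A)
    rwa [mul_one] at this
  rw [← h1.limsup_eq]
  refine le_trans (limsup_le_limsup (Eventually.of_forall fun n => ?_))
    (cly_usc hc tendsto_const_nhds hx (fun _ => hu))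
  have hn : (0 : ℝ) ≤ n := Nat.cast_nonneg n
  refine h _ (by positivity) ?_
  rw [div_lt_one (by positivity)]
  linarith

end

/-- Reflections. -/
theorem cly_refl {w : E3} (hw : ‖w‖ = 1) (x : E3) :
    (x - (2 * ⟪w, x⟫) • w) - (2 * ⟪w, x - (2 * ⟪w, x⟫) • w⟫) • w = x := by
  rw [inner_sub_right, inner_smul_right, real_inner_self_eq_norm_sq, hw]
  have : 2 * (⟪w, x⟫ - 2 * ⟪w, x⟫ * 1 ^ 2) = -(2 * ⟪w, x⟫) := by ring
  rw [this, neg_smul]
  abel

/-- **CLY.** -/
theorem t_cly : CLYStmt := by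
  intro K hK
  refine IsSeqClosed.isClosed ?_
  intro p q hp hq
  have hu : Tendsto (fun n => (p n).1) atTop (𝓝 q.1) := (continuous_fst.tendsto q).comp hq
  have hw : Tendsto (fun n => (p n).2) atTop (𝓝 q.2) := (continuous_snd.tendsto q).comp hq
  have o1 : ‖q.1‖ = 1 := tendsto_nhds_unique (hu.norm)
    (by simp only [(hp _).1.1]; exact tendsto_const_nhds)
  have o2 : ‖q.2‖ = 1 := tendsto_nhds_unique (hw.norm)
    (by simp only [(hp _).1.2.1]; exact tendsto_const_nhds)
  have o3 : ⟪q.1, q.2⟫ = (0 : ℝ) := tendsto_nhds_unique (hu.inner hw)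
    (by simp only [(hp _).1.2.2]; exact tendsto_const_nhds)
  refine ⟨⟨o1, o2, o3⟩, ?_⟩
  obtain ⟨y, hy⟩ := hK.2.2
  have key : ∀ x, xl K q.1 x ≤ xl K q.1 (x - (2 * ⟪q.2, x⟫) • q.2) := by
    intro x
    refine cly_lim (y := y) hK.2.1 o1 (fun x => x - (2 * ⟪q.2, x⟫) • q.2) (by fun_prop) ?_
    intro t t0 t1
    obtain ⟨z, hz⟩ : ∃ z : E3, z = (1 - t) • x + t • y := ⟨_, rfl⟩
    have h1 := cly_mix hK.1 hy x q.1 t0 t1
    rw [← hz] at h1 ⊢
    refine h1.trans ((cly_lsc isOpen_interior hu (tendsto_const_nhds (x := z))).trans ?_)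
    have hR : Tendsto (fun n => z - (2 * ⟪(p n).2, z⟫) • (p n).2) atTop
        (𝓝 (z - (2 * ⟪q.2, z⟫) • q.2)) :=
      tendsto_const_nhds.sub (((hw.inner tendsto_const_nhds).const_mul 2).smul hw)
    refine le_trans ?_ (cly_usc hK.2.1 hu hR (fun n => (hp n).1.1))
    refine le_trans (liminf_le_limsup) (limsup_le_limsup (Eventually.of_forall fun n => ?_))
    have h2 := (hp n).2 z
    unfold xl at h2
    beta_reduce
    rw [h2]
    exact measure_mono fun s hs => interior_subset (s := K) hs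
  intro x
  refine le_antisymm ?_ (key x)
  have h3 := key (x - (2 * ⟪q.2, x⟫) • q.2)
  rwa [cly_refl o2] at h3

end Pool.XR2
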